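import Pool.Agent.H923R2.FZ.Stubs1

/-! MP_118406_an, second half, task LAWV: laws of a Rørdam–Winter system. -/

set_option autoImplicit false

open scoped ComplexConjugate

noncomputable section

namespace Pool.Agent.H923R2.FZ.T_LAWV

open Pool.Agent.H923R2.FP Pool.Agent.H923R2.FZ

lemma pos_cfc {B : Type} [CStarAlgebra B] {τ : B →ₗ[ℂ] ℂ} (hτ : FTS τ) (x : B) {G : ℝ → ℝ}
    (hG : Continuous G) (h0 : ∀ t, 0 ≤ G t) : 0 ≤ (τ (cfc G x)).re := by
  have h1 : cfc G x = star (cfc (fun t => Real.sqrt (G t)) x) *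
      cfc (fun t => Real.sqrt (G t)) x := by
    have hs : IsSelfAdjoint (cfc (fun t => Real.sqrt (G t)) x) := cfc_predicate _ _
    have hc : ContinuousOn (fun t => Real.sqrt (G t)) (spectrum ℝ x) :=
      (Real.continuous_sqrt.comp hG).continuousOn
    rw [hs.star_eq, ← cfc_mul _ _ x hc hc]
    congr 1
    funext t
    exact (Real.mul_self_sqrt (h0 t)).symm
  rw [h1]
  exact hτ.nonneg _

lemma mono_cfc {B : Type} [CStarAlgebra B] {τ : B →ₗ[ℂ] ℂ} (hτ : FTS τ) (x : B) {F G : ℝ → ℝ}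
    (hF : Continuous F) (hG : Continuous G) (h0 : ∀ t, F t ≤ G t) :
    (τ (cfc F x)).re ≤ (τ (cfc G x)).re := by
  have h1 := pos_cfc hτ x (hG.sub hF) (fun t => sub_nonneg.2 (h0 t))
  change 0 ≤ (τ (cfc (fun t => G t - F t) x)).re at h1
  rw [cfc_sub G F x hG.continuousOn hF.continuousOn, map_sub, Complex.sub_re] at h1
  linarith

lemma approx {F : ℝ → ℝ} (hF : Continuous F) (h0 : F 0 = 0) {ε : ℝ} (hε : 0 < ε) :
    ∃ p : Polynomial ℝ, ∀ t ∈ Set.Icc (0 : ℝ) 1, |F t - (Polynomial.X ^ 2 * p).eval t| ≤ ε := by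
  obtain ⟨s, hs, hs'⟩ : ∃ s > 0, ∀ t, |t| < s → |F t| < ε / 2 := by
    have := Metric.continuous_iff.mp hF 0 (ε / 2) (by positivity)
    simpa [Real.dist_eq, h0] using this
  have hpos : ∀ t, 0 < max t s := fun t => lt_of_lt_of_le hs (le_max_right _ _)
  have hH : Continuous fun t => F t / (max t s) ^ 2 := by
    apply hF.div (by fun_prop)
    intro t
    exact (pow_pos (hpos t) 2).ne'
  obtain ⟨p, hp⟩ := exists_polynomial_near_of_continuousOn 0 1 (fun t => F t / (max t s) ^ 2)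
    hH.continuousOn (ε / 2) (by positivity)
  refine ⟨p, fun t ht => ?_⟩
  have h1 := hp t ht
  have h2 : |F t - t ^ 2 * (F t / (max t s) ^ 2)| ≤ ε / 2 := by
    rcases le_or_gt s t with h | h
    · rw [max_eq_left h]
      have ht0 : t ≠ 0 := (lt_of_lt_of_le hs h).ne'
      rw [mul_div_cancel₀ _ (pow_ne_zero 2 ht0), sub_self, abs_zero]
      positivity
    · rw [max_eq_right h.le]
      have h3 : F t - t ^ 2 * (F t / s ^ 2) = F t * (1 - t ^ 2 / s ^ 2) := by
        field_simp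
      rw [h3, abs_mul]
      have h4 : |F t| < ε / 2 := hs' t (by rw [abs_of_nonneg ht.1]; exact h)
      have h5 : |1 - t ^ 2 / s ^ 2| ≤ 1 := by
        have h6 : t ^ 2 / s ^ 2 ≤ 1 := by
          rw [div_le_one (by positivity)]
          exact pow_le_pow_left₀ ht.1 h.le 2
        have h7 : 0 ≤ t ^ 2 / s ^ 2 := by positivity
        rw [abs_le]; constructor <;> linarith
      calc |F t| * |1 - t ^ 2 / s ^ 2| ≤ |F t| * 1 :=
            mul_le_mul_of_nonneg_left h5 (abs_nonneg _)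
        _ ≤ ε / 2 := by linarith
  have h8 : |t ^ 2 * (F t / (max t s) ^ 2) - t ^ 2 * p.eval t| ≤ ε / 2 := by
    rw [← mul_sub, abs_mul, abs_sub_comm]
    have h9 : |t ^ 2| ≤ 1 := by
      rw [abs_of_nonneg (by positivity)]
      exact pow_le_one₀ ht.1 ht.2
    calc |t ^ 2| * |p.eval t - F t / (max t s) ^ 2| ≤ 1 * (ε / 2) :=
          mul_le_mul h9 h1.le (abs_nonneg _) zero_le_one
      _ = ε / 2 := one_mul _
  have h10 : F t - (Polynomial.X ^ 2 * p).eval t =
      (F t - t ^ 2 * (F t / (max t s) ^ 2)) + (t ^ 2 * (F t / (max t s) ^ 2) - t ^ 2 * p.eval t) := by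
    rw [Polynomial.eval_mul, Polynomial.eval_pow, Polynomial.eval_X]; ring
  rw [h10]
  calc _ ≤ _ := abs_add_le _ _
    _ ≤ ε := by linarith

lemma norm_poly {B : Type} [CStarAlgebra B] {x : B} (hx : PC x) {F : ℝ → ℝ} (hF : Continuous F)
    (q : Polynomial ℝ) {ε : ℝ} (hε : 0 ≤ ε) (h : ∀ t ∈ Set.Icc (0 : ℝ) 1, |F t - q.eval t| ≤ ε) :
    ‖cfc F x - Polynomial.aeval x q‖ ≤ ε := by
  rw [← cfc_polynomial q x hx.1, ← cfc_sub F q.eval x hF.continuousOn q.continuous.continuousOn]
  apply norm_cfc_le hε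
  intro t ht
  rw [Real.norm_eq_abs]
  exact h t (hx.2 ht)

lemma law2 {B : Type} [CStarAlgebra B] {τ : B →ₗ[ℂ] ℂ} (hτ : FTS τ) {x y : B} (hx : PC x)
    (hy : PC y) (c : ℂ) (hm : ∀ k : ℕ, τ (x ^ (k + 2)) = c * τ (y ^ (k + 2))) {F : ℝ → ℝ}
    (hF : Continuous F) (h0 : F 0 = 0) : τ (cfc F x) = c * τ (cfc F y) := by
  have hp : ∀ p : Polynomial ℝ, τ (Polynomial.aeval x (Polynomial.X ^ 2 * p)) =
      c * τ (Polynomial.aeval y (Polynomial.X ^ 2 * p)) := by
    intro p
    induction p using Polynomial.induction_on' with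
    | add p q hp hq => rw [mul_add, map_add, map_add, map_add, map_add, hp, hq, mul_add]
    | monomial n a =>
      have e : ∀ z : B, τ (Polynomial.aeval z (Polynomial.X ^ 2 * Polynomial.monomial n a)) =
          (a : ℂ) * τ (z ^ (n + 2)) := by
        intro z
        rw [map_mul, Polynomial.aeval_monomial, map_pow, Polynomial.aeval_X,
          ← Algebra.smul_def, mul_smul_comm, ← pow_add, add_comm 2 n,
          ← Complex.coe_smul a, map_smul, smul_eq_mul]
      rw [e, e, hm]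
      ring
  by_contra hne
  have hd : 0 < ‖τ (cfc F x) - c * τ (cfc F y)‖ := norm_pos_iff.2 (sub_ne_zero.2 hne)
  obtain ⟨D, hD⟩ : ∃ D, D = ‖τ (cfc F x) - c * τ (cfc F y)‖ := ⟨_, rfl⟩
  rw [← hD] at hd
  have hc : 0 < 2 * (1 + ‖c‖) := by positivity
  have hε : 0 < D / (2 * (1 + ‖c‖)) := div_pos hd hc
  obtain ⟨p, hp'⟩ := approx hF h0 hε
  have h1 := norm_poly hx hF _ hε.le hp'
  have h2 := norm_poly hy hF _ hε.le hp'
  have h3 : τ (cfc F x) - c * τ (cfc F y) =
      τ (cfc F x - Polynomial.aeval x (Polynomial.X ^ 2 * p)) -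
        c * τ (cfc F y - Polynomial.aeval y (Polynomial.X ^ 2 * p)) := by
    rw [map_sub, map_sub, hp p]; ring
  have h4 : ‖τ (cfc F x) - c * τ (cfc F y)‖ ≤
      D / (2 * (1 + ‖c‖)) + ‖c‖ * (D / (2 * (1 + ‖c‖))) := by
    rw [h3]
    refine (norm_sub_le _ _).trans (add_le_add ((hτ.bound _).trans h1) ?_)
    rw [norm_mul]
    exact mul_le_mul_of_nonneg_left ((hτ.bound _).trans h2) (norm_nonneg _)
  have h5 : D / (2 * (1 + ‖c‖)) + ‖c‖ * (D / (2 * (1 + ‖c‖))) = D / 2 := by
    field_simp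
  rw [← hD] at h4
  linarith

section alg

variable {B : Type} [CStarAlgebra B] {n : ℕ} {φ : Fin (n + 1) → Fin (n + 1) → B} {v : B}

lemma h_comm (H : RWS n φ v) (i l : Fin (n + 1)) :
    φ i l * (∑ m, φ m m) = (∑ m, φ m m) * φ i l := by
  rw [Finset.mul_sum, Finset.sum_eq_single l]
  · rw [H.mul, if_pos rfl]
  · intro m _ hm
    rw [H.mul, if_neg (Ne.symm hm)]
  · intro h; exact absurd (Finset.mem_univ _) h

lemma h_pow (H : RWS n φ v) (i : Fin (n + 1)) (k : ℕ) :
    (∑ m, φ m m) ^ k * φ i i = φ i i ^ (k + 1) := by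
  induction k with
  | zero => simp
  | succ k ih =>
    rw [pow_succ (φ i i) (k + 1), ← ih, mul_assoc, H.mul, if_pos rfl, ← mul_assoc, ← pow_succ]

lemma h_pow_sum (H : RWS n φ v) (k : ℕ) :
    (∑ m, φ m m) ^ (k + 1) = ∑ m, φ m m ^ (k + 1) := by
  rw [pow_succ, Finset.mul_sum]
  exact Finset.sum_congr rfl fun i _ => h_pow H i k

lemma tr_pow (H : RWS n φ v) {τ : B →ₗ[ℂ] ℂ} (hτ : FTS τ) (i : Fin (n + 1)) (k : ℕ) :
    τ (φ i i ^ (k + 2)) = τ (φ 0 0 ^ (k + 2)) := by
  have hc : Commute (φ 0 i) ((∑ m, φ m m) ^ k) := Commute.pow_right (h_comm H 0 i) k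
  have h1 : (∑ m, φ m m) ^ k * (φ i 0 * φ 0 i) = φ i i ^ (k + 2) := by
    rw [H.mul, if_pos rfl, ← mul_assoc, ← pow_succ, h_pow H]
  have h2 : (∑ m, φ m m) ^ k * (φ 0 i * φ i 0) = φ 0 0 ^ (k + 2) := by
    rw [H.mul, if_pos rfl, ← mul_assoc, ← pow_succ, h_pow H]
  rw [← h1, ← h2, ← mul_assoc, hτ.comm, ← mul_assoc, hc.eq, mul_assoc]

lemma part2 (H : RWS n φ v) {τ : B →ₗ[ℂ] ℂ} (hτ : FTS τ) {F : ℝ → ℝ} (hF : Continuous F)
    (h0 : F 0 = 0) : τ (cfc F (∑ m, φ m m)) = ((n : ℂ) + 1) * τ (cfc F (φ 0 0)) := by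
  apply law2 hτ H.pc (H.pc0 0) _ _ hF h0
  intro k
  rw [show k + 2 = (k + 1) + 1 from rfl, h_pow_sum H, map_sum,
    Finset.sum_congr rfl fun i _ => tr_pow H hτ i k]
  simp

end alg

lemma cut_cont (s d : ℝ) : Continuous (cut s d) := by
  unfold cut; fun_prop

lemma cut_nonneg (s d t : ℝ) : 0 ≤ cut s d t := le_max_left _ _

lemma cut_le_one (s d t : ℝ) : cut s d t ≤ 1 := max_le zero_le_one (min_le_left _ _)

lemma cut_zero {s d t : ℝ} (hd : 0 < d) (h : t ≤ s) : cut s d t = 0 := by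
  unfold cut
  have : (t - s) / d ≤ 0 := div_nonpos_of_nonpos_of_nonneg (by linarith) hd.le
  exact max_eq_left ((min_le_right _ _).trans this)

lemma cut_one {s d t : ℝ} (hd : 0 < d) (h : s + d ≤ t) : cut s d t = 1 := by
  unfold cut
  have : 1 ≤ (t - s) / d := by rw [le_div_iff₀ hd]; linarith
  rw [min_eq_left this]
  exact max_eq_right zero_le_one

/-- a continuous function which is `1` near `1` -/
lemma top_fix {B : Type} [CStarAlgebra B] {x v : B} (hx : IsSelfAdjoint x) (hxv : x * v = v)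
    {F : ℝ → ℝ} (hF : Continuous F) {η : ℝ} (hη : 0 < η) (h1 : ∀ t, 1 - η ≤ t → F t = 1) :
    cfc F x * v = v := by
  have hpos : ∀ t : ℝ, 0 < max (1 - t) η := fun t => lt_of_lt_of_le hη (le_max_right _ _)
  have hHc : Continuous fun t => (F t - 1) / max (1 - t) η :=
    (hF.sub continuous_const).div (by fun_prop) fun t => (hpos t).ne'
  have hF' : F = fun t => 1 + (F t - 1) / max (1 - t) η * (1 - t) := by
    funext t
    rcases le_or_gt (1 - η) t with h | h
    · rw [h1 t h]; simp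
    · rw [max_eq_left (by linarith), div_mul_cancel₀ _ (by linarith)]; ring
  have e : cfc F x = 1 + cfc (fun t => (F t - 1) / max (1 - t) η) x * (1 - x) := by
    conv_lhs => rw [hF']
    rw [cfc_add x (fun _ => (1 : ℝ)) (fun t => (F t - 1) / max (1 - t) η * (1 - t))
      (by fun_prop) (hHc.mul (by fun_prop)).continuousOn, cfc_const_one ℝ x hx,
      cfc_mul _ (fun t => 1 - t) x hHc.continuousOn (by fun_prop),
      cfc_sub (fun _ => (1 : ℝ)) (fun t => t) x (by fun_prop) (by fun_prop),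
      cfc_const_one ℝ x hx, cfc_id' ℝ x hx]
  rw [e, add_mul, mul_assoc, sub_mul, one_mul, hxv, sub_self, mul_zero, add_zero]

theorem t_LAWV : S_LAWV := by
  intro B _ τ hτ n φ v H hfs
  have hpart2 : ∀ F : ℝ → ℝ, Continuous F → F 0 = 0 →
      τ (cfc F (∑ m, φ m m)) = ((n : ℂ) + 1) * τ (cfc F (φ 0 0)) :=
    fun F hF h0 => part2 H hτ hF h0
  refine ⟨?_, hpart2, ?_⟩
  · intro F hF hF0 ⟨t0, ht0, hFt0⟩
    -- a positive point
    obtain ⟨t1, ht1, ht1', hFt1⟩ : ∃ t1 : ℝ, 0 < t1 ∧ t1 ≤ 1 ∧ F t1 ≠ 0 := by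
      rcases eq_or_lt_of_le ht0.1 with h | h
      · subst h
        have hev : ∀ᶠ t in nhds (0 : ℝ), F t ≠ 0 := hF.continuousAt.eventually_ne hFt0
        obtain ⟨r, hr, hr'⟩ := Metric.eventually_nhds_iff.1 hev
        refine ⟨min (r / 2) 1, lt_min (by linarith) one_pos, min_le_right _ _, hr' ?_⟩
        rw [Real.dist_eq, sub_zero, abs_of_pos (lt_min (by linarith) one_pos)]
        exact lt_of_le_of_lt (min_le_left _ _) (by linarith)
      · exact ⟨t0, h, ht0.2, hFt0⟩
    have hGc : Continuous fun t => F t * max 0 (min 1 t) := by fun_prop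
    have hG0 : ∀ t, 0 ≤ F t * max 0 (min 1 t) := fun t => mul_nonneg (hF0 t) (le_max_left _ _)
    have h1 := hfs _ hGc hG0 ⟨t1, ⟨ht1.le, ht1'⟩, by
      rw [min_eq_right ht1', max_eq_right ht1.le]
      exact mul_ne_zero hFt1 ht1.ne'⟩
    rw [hpart2 _ hGc (by simp)] at h1
    have h2 : 0 < (τ (cfc (fun t => F t * max 0 (min 1 t)) (φ 0 0))).re := by
      rw [show ((n : ℂ) + 1) = (((n : ℝ) + 1 : ℝ) : ℂ) by push_cast; ring,
        Complex.re_ofReal_mul] at h1
      exact (mul_pos_iff_of_pos_left (by positivity)).1 h1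
    refine lt_of_lt_of_le h2 (mono_cfc hτ _ hGc hF fun t => ?_)
    exact mul_le_of_le_one_right (hF0 t) (max_le zero_le_one (min_le_left _ _))
  · intro δ hδ hδ1
    set h := ∑ m, φ m m with hh
    have hG := cut_cont (δ / 4) (δ / 4)
    have hG2 := cut_cont (δ / 8) (δ / 8)
    have hK := cut_cont (1 - δ) (δ / 2)
    -- comparison of the two levels
    have hcomp : ∀ F : ℝ → ℝ, Continuous F → cfc F (1 - h) = cfc (fun t => F (1 - t)) h := by
      intro F hF
      have e1 : (1 - h : B) = cfc (fun t : ℝ => 1 - t) h := by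
        rw [cfc_sub (fun _ => (1 : ℝ)) (fun t => t) h (by fun_prop) (by fun_prop),
          cfc_const_one ℝ h H.pc.1, cfc_id' ℝ h H.pc.1]
      rw [e1, ← cfc_comp' F (fun t : ℝ => 1 - t) h (hF.continuousOn) (by fun_prop) H.pc.1]
    have hle : ∀ t, cut (δ / 4) (δ / 4) t ≤ cut (δ / 8) (δ / 8) t := by
      intro t
      rcases le_or_gt t (δ / 4) with ht | ht
      · rw [cut_zero (by linarith) ht]; exact cut_nonneg _ _ _
      · rw [cut_one (s := δ / 8) (d := δ / 8) (by linarith) (by linarith)]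
        exact cut_le_one _ _ _
    have hDc : Continuous fun t => cut (δ / 8) (δ / 8) (1 - t) - cut (δ / 4) (δ / 4) (1 - t) :=
      (hG2.comp (by fun_prop)).sub (hG.comp (by fun_prop))
    have hstep1 : (τ (cfc (cut (δ / 4) (δ / 4)) (1 - h))).re <
        (τ (cfc (cut (δ / 8) (δ / 8)) (1 - h))).re := by
      have h1 := hfs _ hDc (fun t => sub_nonneg.2 (hle _)) ⟨1 - δ / 4, ⟨by linarith, by linarith⟩, by
        rw [show 1 - (1 - δ / 4) = δ / 4 by ring, cut_one (by linarith) (by linarith),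
          cut_zero (by linarith) le_rfl]
        norm_num⟩
      rw [cfc_sub (fun t => cut (δ / 8) (δ / 8) (1 - t)) (fun t => cut (δ / 4) (δ / 4) (1 - t)) h
        (hG2.comp (by fun_prop)).continuousOn (hG.comp (by fun_prop)).continuousOn, map_sub,
        Complex.sub_re, ← hcomp _ hG2, ← hcomp _ hG] at h1
      linarith
    -- `v* v` and `v v*`
    have hvv : star v * v = 1 - h := H.vv
    have hPC1 : PC (star v * v) := by
      refine ⟨IsSelfAdjoint.star_mul_self v, ?_⟩
      rw [hvv, show (1 - h : B) = algebraMap ℝ B 1 - h by simp,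
        ← spectrum.singleton_sub_eq]
      rintro _ ⟨a, rfl, b, hb, rfl⟩
      have := H.pc.2 hb
      exact ⟨by simpa using this.2, by simpa using this.1⟩
    have hPC2 : PC (v * star v) := by
      refine ⟨IsSelfAdjoint.mul_star_self v, ?_⟩
      intro t ht
      by_cases ht0 : t = 0
      · subst ht0; exact ⟨le_rfl, zero_le_one⟩
      · have h1 : t ∈ spectrum ℝ (v * star v) \ {0} := ⟨ht, ht0⟩
        rw [spectrum.nonzero_mul_comm] at h1
        exact hPC1.2 h1.1
    have hmom : ∀ k : ℕ, τ ((star v * v) ^ (k + 2)) = 1 * τ ((v * star v) ^ (k + 2)) := by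
      intro k
      have e : ∀ k : ℕ, (star v * v) ^ (k + 1) = star v * (v * star v) ^ k * v := by
        intro k
        induction k with
        | zero => simp
        | succ k ih =>
          rw [pow_succ (star v * v), ih, pow_succ (v * star v)]
          simp only [mul_assoc]
      rw [one_mul, show k + 2 = (k + 1) + 1 from rfl, e, hτ.comm, pow_succ' (v * star v) (k + 1)]
      simp only [mul_assoc]
    have hstep2 : τ (cfc (cut (δ / 8) (δ / 8)) (star v * v)) =
        τ (cfc (cut (δ / 8) (δ / 8)) (v * star v)) := by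
      have := law2 hτ hPC1 hPC2 1 hmom hG2 (cut_zero (by linarith) (by linarith))
      rwa [one_mul] at this
    -- `K(φ 0 0) v = v`
    have hδ2 : 0 < δ / 2 := by linarith
    have hKs : Continuous fun t => Real.sqrt (cut (1 - δ) (δ / 2) t) :=
      Real.continuous_sqrt.comp hK
    have hsv : cfc (fun t => Real.sqrt (cut (1 - δ) (δ / 2) t)) (φ 0 0) * v = v := by
      refine top_fix (H.pc0 0).1 H.ve hKs hδ2 fun t ht => ?_
      rw [cut_one hδ2 (by linarith), Real.sqrt_one]
    obtain ⟨s, hs⟩ : ∃ s, s = cfc (fun t => Real.sqrt (cut (1 - δ) (δ / 2) t)) (φ 0 0) := ⟨_, rfl⟩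
    rw [← hs] at hsv
    have hss : s * s = cfc (cut (1 - δ) (δ / 2)) (φ 0 0) := by
      rw [hs, ← cfc_mul _ _ _ hKs.continuousOn hKs.continuousOn]
      congr 1
      funext t
      exact Real.mul_self_sqrt (cut_nonneg _ _ _)
    have hsa : star s = s := by
      rw [hs]; exact (cfc_predicate _ _ : IsSelfAdjoint _).star_eq
    have hRc : Continuous fun t => Real.sqrt (1 - cut (δ / 8) (δ / 8) t) :=
      Real.continuous_sqrt.comp (continuous_const.sub hG2)
    obtain ⟨r, hr⟩ : ∃ r, r = cfc (fun t => Real.sqrt (1 - cut (δ / 8) (δ / 8) t)) (v * star v) :=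
      ⟨_, rfl⟩
    have hrr : r * r = 1 - cfc (cut (δ / 8) (δ / 8)) (v * star v) := by
      rw [hr, ← cfc_mul _ _ _ hRc.continuousOn hRc.continuousOn,
        ← cfc_const_one ℝ (v * star v) hPC2.1,
        ← cfc_sub _ _ _ continuousOn_const hG2.continuousOn]
      congr 1
      funext t
      exact Real.mul_self_sqrt (sub_nonneg.2 (cut_le_one _ _ _))
    have hra : star r = r := by
      rw [hr]; exact (cfc_predicate _ _ : IsSelfAdjoint _).star_eq
    have hfac : cfc (cut (δ / 8) (δ / 8)) (v * star v) = (v * star v) *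
        cfc (fun t => cut (δ / 8) (δ / 8) t / max t (δ / 8)) (v * star v) := by
      have hpos : ∀ t : ℝ, 0 < max t (δ / 8) := fun t => lt_of_lt_of_le (by linarith)
        (le_max_right _ _)
      have hHc : Continuous fun t => cut (δ / 8) (δ / 8) t / max t (δ / 8) :=
        hG2.div (by fun_prop) fun t => (hpos t).ne'
      have e : cut (δ / 8) (δ / 8) =
          fun t => t * (cut (δ / 8) (δ / 8) t / max t (δ / 8)) := by
        funext t
        rcases le_or_gt t (δ / 8) with ht | ht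
        · rw [cut_zero (by linarith) ht]; simp
        · rw [max_eq_left ht.le]
          have ht0 : t ≠ 0 := by
            have : 0 < t := by linarith
            exact this.ne'
          rw [mul_div_cancel₀ _ ht0]
      conv_lhs => rw [e]
      rw [cfc_mul (fun t => t) _ (v * star v) (by fun_prop) hHc.continuousOn,
        cfc_id' ℝ (v * star v) hPC2.1]
    have hkg : s * (s * cfc (cut (δ / 8) (δ / 8)) (v * star v)) =
        cfc (cut (δ / 8) (δ / 8)) (v * star v) := by
      rw [hfac]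
      simp only [mul_assoc]
      rw [← mul_assoc s v, hsv, ← mul_assoc s v, hsv]
    have hfin : (τ (cfc (cut (1 - δ) (δ / 2)) (φ 0 0))).re -
        (τ (cfc (cut (δ / 8) (δ / 8)) (v * star v))).re = (τ (star (r * s) * (r * s))).re := by
      have e1 : star (r * s) * (r * s) = s * (r * r * s) := by
        rw [star_mul, hsa, hra]; simp only [mul_assoc]
      have e2 : s * (r * r * s) = s * (r * r) * s := by simp only [mul_assoc]
      have e3 : τ (s * (r * r) * s) = τ (s * (s * (r * r))) := hτ.comm _ _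
      rw [e1, e2, e3, hrr, mul_sub, mul_sub, hkg, mul_one, hss, map_sub, Complex.sub_re]
    have := hτ.nonneg (r * s)
    rw [← hfin] at this
    calc (τ (cfc (cut (δ / 4) (δ / 4)) (1 - h))).re
        < (τ (cfc (cut (δ / 8) (δ / 8)) (1 - h))).re := hstep1
      _ = (τ (cfc (cut (δ / 8) (δ / 8)) (v * star v))).re := by rw [← hvv, hstep2]
      _ ≤ _ := by linarith

end Pool.Agent.H923R2.FZ.T_LAWV
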